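import Mathlib

/-!
# Range-2 cellular automata and orphans
-/

namespace Q222.OR

/-- The image of a word of length `l + 1` under the local rule `f : S × S → S`. -/
def image {S : Type} (f : S → S → S) {l : ℕ} (v : Fin (l + 1) → S) : Fin l → S :=
  fun i => f (v i.castSucc) (v i.succ)

/-- `u ∈ S^l` is an orphan if no `v ∈ S^(l+1)` has `f(v) = u`. -/
def Orphan {S : Type} (f : S → S → S) {l : ℕ} (u : Fin l → S) : Prop :=
  ¬ ∃ v : Fin (l + 1) → S, image f v = u

/-- `m` is the length of a shortest orphan (so that the automaton is non-surjective). -/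
def ShortestOrphan {S : Type} (f : S → S → S) (m : ℕ) : Prop :=
  IsLeast {l : ℕ | ∃ u : Fin l → S, Orphan f u} m

/-- The proportion of orphans among the words of length `l`. -/
noncomputable def rho {S : Type} (f : S → S → S) (l : ℕ) : ℝ :=
  (Nat.card {u : Fin l → S // Orphan f u} : ℝ) / (Nat.card S : ℝ) ^ l

end Q222.OR
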