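import Pool.Agent.Q222.OR.Defs

/-!
# The lock automaton
-/

namespace Q222.OR

/-- Vectors over the field with two elements. -/
abbrev H (r : ℕ) := Fin r → ZMod 2

variable {r : ℕ}

/-- The nilpotent shift. -/
def sh (u : H r) : H r := fun j => if h : j.val + 1 < r then u ⟨j.val + 1, h⟩ else 0

/-- The difference map. -/
def df (v : H r) : H r := fun j =>
  if h : j.val = 0 then 0 else v ⟨j.val - 1, by omega⟩ + v j

/-- The states: a tag in `Fin (2^r)` and a vector. -/
abbrev St (r : ℕ) := Fin (2 ^ r) × H r

/-- The local rule on the vectors: tag zero is the special tag. -/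
def g (s : Fin (2 ^ r)) (u v : H r) : H r := if s.val = 0 then sh u + v else u + df v

/-- The local rule. -/
def rule (r : ℕ) (x y : St r) : St r := (x.1, g x.1 x.2 y.2)

/-- The vectors `w_c`: `r - c` ones followed by zeros. -/
def w (r c : ℕ) : H r := fun j => if j.val + c < r then 1 else 0

theorem sh_add (u v : H r) : sh (u + v) = sh u + sh v := by
  funext j
  simp only [sh, Pi.add_apply]
  split_ifs <;> simp

theorem df_add (u v : H r) : df (u + v) = df u + df v := by
  funext j
  simp only [df, Pi.add_apply]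
  split_ifs
  · simp
  · ring

theorem sh_w (c : ℕ) : sh (w r c) = w r (c + 1) := by
  funext j
  simp only [sh, w]
  by_cases h : j.val + 1 < r
  · rw [dif_pos h]
    have : (j.val + 1 + c < r) ↔ (j.val + (c + 1) < r) := by omega
    simp only [this]
  · rw [dif_neg h, if_neg (by omega)]

theorem df_w : df (w r 0) = 0 := by
  funext j
  simp only [df, w, Pi.zero_apply]
  split_ifs with h1 h2 h3
  · rfl
  · decide
  · omega
  · omega
  · omega

theorem add_self (a : ZMod 2) : a + a = 0 := by
  revert a; decide

theorem vadd_self (a : H r) : a + a = 0 := by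
  funext j; exact add_self _

/-- Every vector with first coordinate zero is a difference. -/
theorem exists_df (t : H r) (ht : ∀ h : 0 < r, t ⟨0, h⟩ = 0) : ∃ v, df v = t := by
  classical
  refine ⟨fun j => ∑ i : Fin r, if i.val ≤ j.val then t i else 0, ?_⟩
  funext j
  simp only [df]
  by_cases h : j.val = 0
  · rw [dif_pos h]
    have hr : 0 < r := by have := j.2; omega
    have : j = ⟨0, hr⟩ := Fin.ext h
    rw [this, ht hr]
  · rw [dif_neg h, ← Finset.sum_add_distrib]
    rw [Finset.sum_eq_single j]
    · have h1 : ¬ (j.val ≤ j.val - 1) := by omega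
      simp [h1]
    · intro i _ hij
      have hne : i.val ≠ j.val := fun h => hij (Fin.ext h)
      by_cases h1 : i.val ≤ j.val
      · have h2 : i.val ≤ j.val - 1 := by omega
        simp only [h1, h2, if_true]
        exact add_self _
      · have h2 : ¬ (i.val ≤ j.val - 1) := by omega
        simp [h1, h2]
    · intro hj; exact absurd (Finset.mem_univ _) hj

/-- Solutions of the vector equations up to `l`. -/
def Sol (s : ℕ → Fin (2 ^ r)) (h : ℕ → H r) (l : ℕ) (u : ℕ → H r) : Prop :=
  ∀ i < l, h i = g (s i) (u i) (u (i + 1))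

theorem exists_sol (hr : 0 < r) (s : ℕ → Fin (2 ^ r)) (h : ℕ → H r) (L : ℕ)
    (hs : ∀ i, i + r ≤ L → ∃ j < r, (s (i + j)).val ≠ 0) :
    ∀ l ≤ L, ∃ c < r, (c ≤ l ∧ ∀ j < c, (s (l - 1 - j)).val = 0) ∧
      ∃ u u', Sol s h l u ∧ Sol s h l u' ∧ u' l = u l + w r c := by
  intro l
  induction l with
  | zero =>
    intro _
    refine ⟨0, hr, ⟨le_rfl, fun j hj => absurd hj (Nat.not_lt_zero _)⟩, fun _ => 0,
      fun _ => w r 0, fun i hi => absurd hi (Nat.not_lt_zero _),
      fun i hi => absurd hi (Nat.not_lt_zero _), ?_⟩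
    simp
  | succ l ih =>
    intro hl
    obtain ⟨c, hc, ⟨hcl, hcs⟩, u, u', hu, hu', huu⟩ := ih (by omega)
    by_cases h0 : (s l).val = 0
    · -- special letter
      have hc1 : c + 1 < r := by
        by_contra hcon
        have hcr : c + 1 = r := by omega
        obtain ⟨j, hj, hjs⟩ := hs (l + 1 - r) (by omega)
        apply hjs
        by_cases hjl : l + 1 - r + j = l
        · rw [hjl]; exact h0
        · have := hcs (l - 1 - (l + 1 - r + j)) (by omega)
          have e1 : l - 1 - (l - 1 - (l + 1 - r + j)) = l + 1 - r + j := by omega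
          rwa [e1] at this
      refine ⟨c + 1, hc1, ⟨by omega, ?_⟩, Function.update u (l + 1) (h l + sh (u l)),
        Function.update u' (l + 1) (h l + sh (u' l)), ?_, ?_, ?_⟩
      · intro j hj
        by_cases hj0 : j = 0
        · subst hj0
          simpa using h0
        · have := hcs (j - 1) (by omega)
          have e1 : l + 1 - 1 - j = l - 1 - (j - 1) := by omega
          rwa [e1]
      · intro i hi
        rcases Nat.lt_succ_iff_lt_or_eq.1 hi with hi' | hi'
        · rw [Function.update_of_ne (by omega), Function.update_of_ne (by omega)]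
          exact hu i hi'
        · subst hi'
          rw [Function.update_of_ne (by omega), Function.update_self, g, if_pos h0]
          rw [add_comm (h i), ← add_assoc, vadd_self, zero_add]
      · intro i hi
        rcases Nat.lt_succ_iff_lt_or_eq.1 hi with hi' | hi'
        · rw [Function.update_of_ne (by omega), Function.update_of_ne (by omega)]
          exact hu' i hi'
        · subst hi'
          rw [Function.update_of_ne (by omega), Function.update_self, g, if_pos h0]
          rw [add_comm (h i), ← add_assoc, vadd_self, zero_add]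
      · rw [Function.update_self, Function.update_self, huu, sh_add, sh_w, add_assoc]
    · -- other letter
      have hl0 : w r c ⟨0, hr⟩ = 1 := by simp [w, hc]
      obtain ⟨v, hv, hv0⟩ : ∃ v, Sol s h l v ∧ v l ⟨0, hr⟩ = h l ⟨0, hr⟩ := by
        by_cases he : u l ⟨0, hr⟩ = h l ⟨0, hr⟩
        · exact ⟨u, hu, he⟩
        · refine ⟨u', hu', ?_⟩
          rw [huu, Pi.add_apply, hl0]
          have : ∀ a b : ZMod 2, a ≠ b → a + 1 = b := by decide
          exact this _ _ he
      obtain ⟨z, hz⟩ := exists_df (h l + v l) (by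
        intro h'
        rw [Pi.add_apply, hv0]
        exact add_self _)
      refine ⟨0, hr, ⟨by omega, fun j hj => absurd hj (Nat.not_lt_zero _)⟩,
        Function.update v (l + 1) z, Function.update v (l + 1) (z + w r 0), ?_, ?_, ?_⟩
      · intro i hi
        rcases Nat.lt_succ_iff_lt_or_eq.1 hi with hi' | hi'
        · rw [Function.update_of_ne (by omega), Function.update_of_ne (by omega)]
          exact hv i hi'
        · subst hi'
          rw [Function.update_of_ne (by omega), Function.update_self, g, if_neg h0, hz]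
          rw [add_comm (h i), ← add_assoc, vadd_self, zero_add]
      · intro i hi
        rcases Nat.lt_succ_iff_lt_or_eq.1 hi with hi' | hi'
        · rw [Function.update_of_ne (by omega), Function.update_of_ne (by omega)]
          exact hv i hi'
        · subst hi'
          rw [Function.update_of_ne (by omega), Function.update_self, g, if_neg h0, df_add, hz,
            df_w, add_zero]
          rw [add_comm (h i), ← add_assoc, vadd_self, zero_add]
      · rw [Function.update_self, Function.update_self]

/-- A word without `r` consecutive special letters is not an orphan. -/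
theorem not_orphan (hr : 0 < r) {l : ℕ} (y : Fin l → St r)
    (hy : ∀ i, i + r ≤ l → ∃ j, ∃ h : i + j < l, j < r ∧ (y ⟨i + j, h⟩).1.val ≠ 0) :
    ¬ Orphan (rule r) y := by
  classical
  intro ho
  apply ho
  have h0 : 0 < 2 ^ r := Nat.two_pow_pos r
  let s : ℕ → Fin (2 ^ r) := fun i => if h : i < l then (y ⟨i, h⟩).1 else ⟨0, h0⟩
  let h : ℕ → H r := fun i => if h : i < l then (y ⟨i, h⟩).2 else 0
  obtain ⟨c, -, -, u, u', hu, -, -⟩ := exists_sol hr s h l (by
    intro i hi
    obtain ⟨j, hj, hjr, hne⟩ := hy i hi
    refine ⟨j, hjr, ?_⟩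
    simp only [s, dif_pos hj]
    exact hne) l le_rfl
  refine ⟨fun i => (s i, u i), ?_⟩
  funext i
  have h1 := hu i.val i.2
  simp only [image, rule, Fin.val_castSucc, Fin.val_succ]
  apply Prod.ext
  · simp only [s, dif_pos i.2]
  · simp only
    rw [← h1]
    simp only [h, dif_pos i.2]

/-- There is an orphan of length `r + 1`. -/
theorem exists_orphan (hr : 0 < r) : ∃ y : Fin (r + 1) → St r, Orphan (rule r) y := by
  have h2 : 1 < 2 ^ r := Nat.one_lt_two_pow (by omega)
  refine ⟨fun i => if i.val < r then (⟨0, by omega⟩, 0) else (⟨1, h2⟩, fun _ => 1), ?_⟩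
  rintro ⟨v, hv⟩
  have key : ∀ i : ℕ, ∀ hi : i ≤ r, ∀ j : Fin r,
      (v ⟨i, by omega⟩).2 j = if h : j.val + i < r then (v 0).2 ⟨j.val + i, h⟩ else 0 := by
    intro i
    induction i with
    | zero =>
      intro _ j
      rw [dif_pos (by have := j.2; omega)]
      rfl
    | succ i ih =>
      intro hi j
      have h1 := congrFun hv ⟨i, by omega⟩
      have hir : i < r := by omega
      simp only [image, rule, if_pos hir] at h1
      have h3 := congrArg Prod.fst h1
      have h4 := congrArg Prod.snd h1
      simp only at h3 h4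
      have h5 : (v (Fin.castSucc ⟨i, by omega⟩)).1.val = 0 := by rw [h3]
      rw [g, if_pos h5] at h4
      have h6 := congrFun h4 j
      simp only [Pi.add_apply, Pi.zero_apply] at h6
      have h7 : (v ⟨i + 1, by omega⟩).2 j = sh (v ⟨i, by omega⟩).2 j := by
        have : ∀ a b : ZMod 2, a + b = 0 → b = a := by decide
        exact this _ _ h6
      rw [h7]
      simp only [sh]
      by_cases hj : j.val + 1 < r
      · rw [dif_pos hj, ih (by omega)]
        have e1 : j.val + 1 + i = j.val + (i + 1) := by ring
        simp only [e1]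
      · rw [dif_neg hj, dif_neg (by omega)]
  have h1 := congrFun hv ⟨r, by omega⟩
  simp only [image, rule, lt_irrefl, if_false] at h1
  have h3 := congrArg Prod.fst h1
  have h4 := congrArg Prod.snd h1
  simp only at h3 h4
  have h5 : ¬ (v (Fin.castSucc ⟨r, by omega⟩)).1.val = 0 := by rw [h3]; simp
  rw [g, if_neg h5] at h4
  have h6 := congrFun h4 ⟨0, hr⟩
  simp only [Pi.add_apply] at h6
  have h7 := key r le_rfl ⟨0, hr⟩
  rw [dif_neg (by simp)] at h7
  have h8 : (v (Fin.castSucc ⟨r, by omega⟩)).2 ⟨0, hr⟩ = 0 := h7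
  rw [h8] at h6
  simp [df] at h6

/-! ### counting -/

theorem card_St (r : ℕ) : Fintype.card (St r) = 4 ^ r := by
  simp [St, H, ZMod.card]
  rw [← mul_pow]
  norm_num

/-- The words with `r` special letters starting at `i`. -/
def Win (r l i : ℕ) : Finset (Fin l → St r) :=
  Fintype.piFinset (fun t : Fin l =>
    if i ≤ t.val ∧ t.val < i + r then Finset.univ.filter (fun x : St r => x.1.val = 0)
    else Finset.univ)

theorem card_zero (r : ℕ) :
    (Finset.univ.filter (fun x : St r => x.1.val = 0)).card = 2 ^ r := by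
  have h0 : 0 < 2 ^ r := Nat.two_pow_pos r
  have : (Finset.univ.filter (fun x : St r => x.1.val = 0)) =
      ({⟨0, h0⟩} : Finset (Fin (2 ^ r))) ×ˢ (Finset.univ : Finset (H r)) := by
    ext x
    rw [Finset.mem_filter, Finset.mem_product, Finset.mem_singleton, Fin.ext_iff]
    exact ⟨fun hx => ⟨hx.2, Finset.mem_univ _⟩, fun hx => ⟨Finset.mem_univ _, hx.1⟩⟩
  rw [this, Finset.card_product, Finset.card_singleton, one_mul, Finset.card_univ]
  simp [H, ZMod.card]

theorem card_Win {r l i : ℕ} (h : i + r ≤ l) : (Win r l i).card * (2 ^ r) ^ r = (4 ^ r) ^ l := by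
  classical
  unfold Win
  rw [Fintype.card_piFinset]
  have h1 : ∀ t : Fin l, (if i ≤ t.val ∧ t.val < i + r then
      Finset.univ.filter (fun x : St r => x.1.val = 0) else Finset.univ).card =
      if i ≤ t.val ∧ t.val < i + r then 2 ^ r else 4 ^ r := by
    intro t
    split_ifs
    · exact card_zero r
    · rw [Finset.card_univ, card_St]
  rw [Finset.prod_congr rfl (fun t _ => h1 t), Finset.prod_ite, Finset.prod_const,
    Finset.prod_const]
  have h2 : (Finset.univ.filter (fun t : Fin l => i ≤ t.val ∧ t.val < i + r)).card = r := by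
    have hb : (Finset.range r).card =
        (Finset.univ.filter (fun t : Fin l => i ≤ t.val ∧ t.val < i + r)).card := by
      refine Finset.card_bij (fun j hj => (⟨i + j, by
        have := Finset.mem_range.1 hj; omega⟩ : Fin l)) ?_ ?_ ?_
      · intro j hj
        have := Finset.mem_range.1 hj
        rw [Finset.mem_filter]
        exact ⟨Finset.mem_univ _, by show i ≤ i + j; omega, by show i + j < i + r; omega⟩
      · intro j _ j' _ he
        have := congrArg Fin.val he
        simp only at this
        omega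
      · intro t ht
        rw [Finset.mem_filter] at ht
        exact ⟨t.val - i, Finset.mem_range.2 (by omega), Fin.ext (by show i + (t.val - i) = t.val; omega)⟩
    rw [← hb, Finset.card_range]
  have h3 : (Finset.univ.filter (fun t : Fin l => ¬ (i ≤ t.val ∧ t.val < i + r))).card =
      l - r := by
    have := Finset.card_filter_add_card_filter_not (s := (Finset.univ : Finset (Fin l)))
      (fun t : Fin l => i ≤ t.val ∧ t.val < i + r)
    rw [h2, Finset.card_univ, Fintype.card_fin] at this
    omega
  rw [h2, h3]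
  calc (2 ^ r) ^ r * (4 ^ r) ^ (l - r) * (2 ^ r) ^ r
      = ((2 ^ r) * (2 ^ r)) ^ r * (4 ^ r) ^ (l - r) := by rw [mul_pow]; ring
    _ = (4 ^ r) ^ r * (4 ^ r) ^ (l - r) := by rw [← mul_pow]; norm_num
    _ = (4 ^ r) ^ l := by rw [← pow_add]; congr 1; omega

theorem rho_le {r l : ℕ} (hr : 0 < r) (hl : l ≤ 2 ^ (r ^ 2 - 1)) : rho (rule r) l ≤ 1 / 2 := by
  classical
  unfold rho
  have hcS : Nat.card (St r) = 4 ^ r := by rw [Nat.card_eq_fintype_card, card_St]
  rw [hcS]
  have hsub : (Finset.univ.filter (fun u : Fin l → St r => Orphan (rule r) u)) ⊆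
      (Finset.range (l + 1 - r)).biUnion (fun i => Win r l i) := by
    intro y hy
    have hy' : Orphan (rule r) y := by simpa using hy
    by_contra hcon
    apply not_orphan hr y _ hy'
    intro i hi
    by_contra hno
    push Not at hno
    apply hcon
    rw [Finset.mem_biUnion]
    refine ⟨i, Finset.mem_range.2 (by omega), ?_⟩
    unfold Win
    rw [Fintype.mem_piFinset]
    intro t
    split_ifs with ht
    · have := hno (t.val - i) (by have := t.2; omega) (by omega)
      have e1 : (⟨i + (t.val - i), by have := t.2; omega⟩ : Fin l) = t := Fin.ext (by simp only; omega)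
      rw [e1] at this
      rw [Finset.mem_filter]
      exact ⟨Finset.mem_univ _, this⟩
    · exact Finset.mem_univ _
  have hcard : Nat.card {u : Fin l → St r // Orphan (rule r) u} * (2 ^ r) ^ r ≤ l * (4 ^ r) ^ l := by
    rw [Nat.card_eq_fintype_card, Fintype.card_subtype]
    calc (Finset.univ.filter (fun u : Fin l → St r => Orphan (rule r) u)).card * (2 ^ r) ^ r
        ≤ ((Finset.range (l + 1 - r)).biUnion (fun i => Win r l i)).card * (2 ^ r) ^ r :=
          Nat.mul_le_mul_right _ (Finset.card_le_card hsub)
      _ ≤ (∑ i ∈ Finset.range (l + 1 - r), (Win r l i).card) * (2 ^ r) ^ r :=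
          Nat.mul_le_mul_right _ Finset.card_biUnion_le
      _ = ∑ i ∈ Finset.range (l + 1 - r), (Win r l i).card * (2 ^ r) ^ r := by
          rw [Finset.sum_mul]
      _ = ∑ i ∈ Finset.range (l + 1 - r), (4 ^ r) ^ l := by
          apply Finset.sum_congr rfl
          intro i hi
          rw [Finset.mem_range] at hi
          exact card_Win (by omega)
      _ = (l + 1 - r) * (4 ^ r) ^ l := by
          rw [Finset.sum_const, Finset.card_range, smul_eq_mul]
      _ ≤ l * (4 ^ r) ^ l := Nat.mul_le_mul_right _ (by omega)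
  have h2l : 2 * l ≤ (2 ^ r) ^ r := by
    have : (2 ^ r) ^ r = 2 * 2 ^ (r ^ 2 - 1) := by
      rw [← pow_mul, ← pow_succ']
      congr 1
      have : 0 < r ^ 2 := by positivity
      rw [← sq]
      omega
    rw [this]
    omega
  have hpos : (0 : ℝ) < ((4 ^ r : ℕ) : ℝ) ^ l := by positivity
  rw [div_le_iff₀ hpos]
  have h5 : (Nat.card {u : Fin l → St r // Orphan (rule r) u} : ℝ) * ((2 ^ r) ^ r : ℕ) ≤
      l * ((4 ^ r : ℕ) : ℝ) ^ l := by exact_mod_cast hcard
  have h6 : 2 * (l : ℝ) ≤ (((2 ^ r) ^ r : ℕ) : ℝ) := by exact_mod_cast h2l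
  have h7 : (0 : ℝ) < (((2 ^ r) ^ r : ℕ) : ℝ) := by positivity
  have h8 : (Nat.card {u : Fin l → St r // Orphan (rule r) u} : ℝ) * ((2 ^ r) ^ r : ℕ) ≤
      (1 / 2 * ((4 ^ r : ℕ) : ℝ) ^ l) * ((2 ^ r) ^ r : ℕ) := by
    calc _ ≤ (l : ℝ) * ((4 ^ r : ℕ) : ℝ) ^ l := h5
      _ ≤ (((2 ^ r) ^ r : ℕ) / 2) * ((4 ^ r : ℕ) : ℝ) ^ l := by
          apply mul_le_mul_of_nonneg_right _ hpos.le
          linarith
      _ = _ := by ring
  exact le_of_mul_le_mul_right h8 h7

end Q222.OR
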