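import Mathlib

/-!
# Growth of a polynomial in two variables on `1 ≤ y ≤ x`
-/

namespace Q222.OR

theorem poly_bound (P : MvPolynomial (Fin 2) ℝ) : ∃ C : ℝ, 0 ≤ C ∧ ∃ D : ℕ, ∀ x y : ℝ, 1 ≤ x →
    0 ≤ y → y ≤ x → |MvPolynomial.eval ![x, y] P| ≤ C * x ^ D := by
  induction P using MvPolynomial.induction_on with
  | C a =>
    refine ⟨|a|, abs_nonneg a, 0, fun x y _ _ _ => ?_⟩
    simp
  | add p q hp hq =>
    obtain ⟨C1, h1, D1, hp⟩ := hp
    obtain ⟨C2, h2, D2, hq⟩ := hq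
    refine ⟨C1 + C2, by positivity, max D1 D2, fun x y hx hy hyx => ?_⟩
    rw [map_add, add_mul]
    refine (abs_add_le _ _).trans (add_le_add ?_ ?_)
    · refine (hp x y hx hy hyx).trans ?_
      exact mul_le_mul_of_nonneg_left (pow_le_pow_right₀ hx (le_max_left _ _)) h1
    · refine (hq x y hx hy hyx).trans ?_
      exact mul_le_mul_of_nonneg_left (pow_le_pow_right₀ hx (le_max_right _ _)) h2
  | mul_X p i hp =>
    obtain ⟨C1, h1, D1, hp⟩ := hp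
    refine ⟨C1, h1, D1 + 1, fun x y hx hy hyx => ?_⟩
    rw [map_mul, MvPolynomial.eval_X, abs_mul, pow_succ, ← mul_assoc]
    have h0 : 0 ≤ x := by linarith
    have hi : |(![x, y] : Fin 2 → ℝ) i| ≤ x := by
      fin_cases i
      · simp [abs_of_nonneg h0]
      · simpa [abs_of_nonneg hy] using hyx
    exact mul_le_mul (hp x y hx hy hyx) hi (abs_nonneg _) (by positivity)

/-- `C * 4^(r D)` is eventually below `2^(r^2 - 1)`. -/
theorem beats (C : ℝ) (hC : 0 ≤ C) (D : ℕ) : ∃ r : ℕ, 0 < r ∧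
    C * ((4 : ℝ) ^ r) ^ D ≤ ((2 ^ (r ^ 2 - 1) : ℕ) : ℝ) := by
  obtain ⟨N, hN⟩ := pow_unbounded_of_one_lt C (show (1 : ℝ) < 2 by norm_num)
  refine ⟨2 * D + N + 1, by omega, ?_⟩
  have h1 : ((4 : ℝ) ^ (2 * D + N + 1)) ^ D = 2 ^ (2 * (2 * D + N + 1) * D) := by
    rw [show (4 : ℝ) = 2 ^ 2 by norm_num, ← pow_mul, ← pow_mul, mul_assoc 2]
  rw [h1]
  calc C * 2 ^ (2 * (2 * D + N + 1) * D) ≤ 2 ^ N * 2 ^ (2 * (2 * D + N + 1) * D) :=
        mul_le_mul_of_nonneg_right hN.le (by positivity)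
    _ = 2 ^ (N + 2 * (2 * D + N + 1) * D) := by rw [pow_add]
    _ ≤ 2 ^ ((2 * D + N + 1) ^ 2 - 1) := by
        apply pow_le_pow_right₀ (by norm_num)
        have : N + 2 * (2 * D + N + 1) * D + 1 ≤ (2 * D + N + 1) ^ 2 := by
          nlinarith [Nat.zero_le (D * N), Nat.zero_le (N * N), Nat.zero_le D, Nat.zero_le N]
        omega
    _ = _ := by push_cast; rfl

end Q222.OR
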